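import Pool.Agent.H81.NCH.Stmts

set_option autoImplicit false

namespace Pool.Agent.H81.NCH.PRV

open Pool.Agent.H80

universe u

variable {K : Type u} [Field K] {n : ℕ} {D : Circuit K (Fin n)}

/-- `t` is a private factor of `x` -/
def Priv (D : Circuit K (Fin n)) (x t : D.V) (j : Fin 2) : Prop :=
  (D.gate x).tail j = some t ∧
    ∀ (w : D.V) (k : Fin 2) (s : D.V), (D.gate w).tail k = some s → D.Path s t → ¬ D.Path w t →
      w = x ∧ k = j

theorem npath_path {X : HVal D} {p q : D.V} (h : NPath X p q) : D.Path p q := by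
  unfold NPath at h
  unfold Circuit.Path
  induction h with
  | refl => exact Relation.ReflTransGen.refl
  | tail _ h2 ih => exact ih.tail h2.1

omit [Field K] in
theorem path_rank {rank : D.V → ℕ}
    (hr : ∀ (v : D.V) (j : Fin 2) (t : D.V), (D.gate v).tail j = some t → rank t < rank v)
    {p q : D.V} (h : D.Path p q) : rank p ≤ rank q := by
  unfold Circuit.Path at h
  induction h with
  | refl => exact le_rfl
  | tail _ h2 ih =>
    obtain ⟨j, hj⟩ := h2
    exact ih.trans (hr _ j _ hj).le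

omit [Field K] in
theorem no_cycle {x t : D.V} {j : Fin 2} (h1 : (D.gate x).tail j = some t) (h2 : D.Path x t) :
    False := by
  obtain ⟨rank, hr⟩ := D.acyclic
  have := path_rank hr h2
  have := hr _ _ _ h1
  omega

/-- a path which leaves the circuit below a private factor `t` of `x` passes through `t` and `x` -/
theorem leave {X : HVal D} {x t : D.V} {j : Fin 2} (hP : Priv D x t j) {p q : D.V}
    (h : NPath X p q) (hp : D.Path p t) (hq : ¬ D.Path q t) :
    NPath X p t ∧ NPath X x q := by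
  unfold NPath at h ⊢
  induction h with
  | refl => exact absurd hp hq
  | @tail b c hab hbc ih =>
    by_cases hb : D.Path b t
    · obtain ⟨⟨k, hk⟩, hne⟩ := hbc
      obtain ⟨hc, hkj⟩ := hP.2 c k b hk hb hq
      subst hc
      subst hkj
      have : b = t := by
        have := hk.symm.trans hP.1
        exact Option.some.inj this
      subst this
      exact ⟨hab, Relation.ReflTransGen.refl⟩
    · obtain ⟨h1, h2⟩ := ih hb
      exact ⟨h1, h2.tail hbc⟩

theorem deg_edge (hTYP : TYPStmt.{u}) (X : HVal D) {s t : D.V} {j : Fin 2}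
    (h : (D.gate t).tail j = some s) (hs : X.val s ≠ 0) (ht : X.val t ≠ 0) :
    X.deg s ≤ X.deg t := by
  obtain ⟨-, -, h3⟩ := hTYP K n D X t 0
  obtain ⟨-, -, h4, h5⟩ := h3 ht
  cases hg : D.gate t with
  | var i => rw [hg] at h; simp [Gate.tail] at h
  | const c => rw [hg] at h; simp [Gate.tail] at h
  | add x y =>
    rw [hg] at h
    obtain ⟨h6, h7, -⟩ := h4 x y hg
    simp only [Gate.tail, Option.some.injEq] at h
    by_cases hj : j = 0
    · rw [if_pos hj] at h
      subst h
      exact (h6 hs).le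
    · rw [if_neg hj] at h
      subst h
      exact (h7 hs).le
  | mul x y =>
    rw [hg] at h
    obtain ⟨-, -, h6, -⟩ := h5 x y hg
    simp only [Gate.tail, Option.some.injEq] at h
    by_cases hj : j = 0
    · rw [if_pos hj] at h
      subst h
      omega
    · rw [if_neg hj] at h
      subst h
      omega

theorem deg_path (hTYP : TYPStmt.{u}) (X : HVal D) {p q : D.V} (h : NPath X p q)
    (hq : X.val q ≠ 0) : X.deg p ≤ X.deg q := by
  unfold NPath at h
  induction h with
  | refl => exact le_rfl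
  | tail _ h2 ih =>
    obtain ⟨⟨j, hj⟩, hb⟩ := h2
    exact (ih hb).trans (deg_edge hTYP X hj hb hq)

theorem card_le {α : Type} [DecidableEq α] (T : Finset α) (f : α → ℕ) (Δ M : ℕ) (hΔ : 1 ≤ Δ)
    (h1 : ∀ x ∈ T, Δ ≤ f x ∧ f x ≤ M)
    (h2 : ∀ x ∈ T, ∀ y ∈ T, x ≠ y → f x + Δ ≤ f y ∨ f y + Δ ≤ f x) : Δ * T.card ≤ M := by
  have hc : T.card ≤ (Finset.Icc 1 (M / Δ)).card := by
    apply Finset.card_le_card_of_injOn (fun x => f x / Δ)
    · intro x hx
      have hx' := h1 x hx
      simp only [Finset.coe_Icc, Set.mem_Icc]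
      exact ⟨Nat.div_pos hx'.1 (by omega), Nat.div_le_div_right hx'.2⟩
    · intro x hx y hy hxy
      by_contra hne
      have hxy' : f x / Δ = f y / Δ := hxy
      rcases h2 x hx y hy hne with h | h
      · have := Nat.div_le_div_right (c := Δ) h
        rw [Nat.add_div_right _ (by omega)] at this
        omega
      · have := Nat.div_le_div_right (c := Δ) h
        rw [Nat.add_div_right _ (by omega)] at this
        omega
  rw [Nat.card_Icc, Nat.add_sub_cancel] at hc
  calc Δ * T.card ≤ Δ * (M / Δ) := Nat.mul_le_mul_left _ hc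
    _ ≤ M := Nat.mul_div_le M Δ

end Pool.Agent.H81.NCH.PRV

namespace Pool.Agent.H81.NCH

open Pool.Agent.H80

universe u

open PRV in
open Classical in
theorem prv_thm (hTYP : TYPStmt.{u}) : PRVStmt.{u} := by
  intro K _ n D X hWS
  let prv : D.V → Bool := fun x => decide (∃ t, Priv D x t 0)
  refine ⟨prv, ?_⟩
  intro Δ v hΔ hv
  set pr : D.V → D.V := fun x => if prv x then lft D x else rgt D x with hpr
  have hlr : ∀ x a b, D.gate x = Gate.mul a b → lft D x = a ∧ rgt D x = b := by
    intro x a b hx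
    unfold lft rgt
    rw [hx]
    exact ⟨rfl, rfl⟩
  -- the chosen factor is private
  have hPr : ∀ x, MulN X x → ∃ j, Priv D x (pr x) j := by
    rintro x ⟨-, a, b, hx⟩
    obtain ⟨hl, hr⟩ := hlr x a b hx
    by_cases h0 : ∃ t, Priv D x t 0
    · obtain ⟨t, ht⟩ := h0
      have hp : prv x = true := decide_eq_true ⟨t, ht⟩
      refine ⟨0, ?_⟩
      have h1 := ht.1
      rw [hx] at h1
      simp only [Gate.tail, if_true, Option.some.injEq] at h1
      have : pr x = t := by
        simp only [hpr, hp, if_true]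
        rw [hl, h1]
      rw [this]
      exact ht
    · have hp : prv x = false := decide_eq_false h0
      obtain ⟨j, t, h1, h2⟩ := hWS x a b hx
      have hj : j ≠ 0 := by
        rintro rfl
        exact h0 ⟨t, h1, h2⟩
      refine ⟨j, ?_⟩
      have h3 := h1
      rw [hx] at h3
      simp only [Gate.tail, if_neg hj, Option.some.injEq] at h3
      have : pr x = t := by
        simp only [hpr, hp]
        rw [if_neg (by simp), hr, h3]
      rw [this]
      exact ⟨h1, h2⟩
  -- degrees
  have hdeg : ∀ x, MulN X x → X.val (pr x) ≠ 0 ∧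
      (Δ ≤ X.deg (lft D x) → Δ ≤ X.deg (rgt D x) → X.deg (pr x) + Δ ≤ X.deg x ∧ Δ ≤ X.deg x) := by
    rintro x ⟨hne, a, b, hx⟩
    obtain ⟨hl, hr⟩ := hlr x a b hx
    obtain ⟨-, -, h3⟩ := hTYP K n D X x 0
    obtain ⟨-, -, -, h5⟩ := h3 hne
    obtain ⟨ha, hb, hd, -⟩ := h5 a b hx
    have hpc : pr x = a ∨ pr x = b := by
      simp only [hpr]
      by_cases hp : prv x = true
      · rw [if_pos hp]; exact Or.inl hl
      · rw [if_neg hp]; exact Or.inr hr
    rw [hl, hr]
    rcases hpc with h | h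
    · rw [h]
      exact ⟨ha, fun h1 h2 => ⟨by omega, by omega⟩⟩
    · rw [h]
      exact ⟨hb, fun h1 h2 => ⟨by omega, by omega⟩⟩
  have hedge : ∀ x, MulN X x → NPath X (pr x) x := by
    intro x hx
    obtain ⟨j, hj⟩ := hPr x hx
    exact Relation.ReflTransGen.single ⟨⟨j, hj.1⟩, (hdeg x hx).1⟩
  set T : Finset D.V := (Sb X v).filter
    (fun x => MulN X x ∧ Δ ≤ X.deg (lft D x) ∧ Δ ≤ X.deg (rgt D x)) with hT
  have hsb : ∀ p q, p ∈ Sb X q ↔ NPath X p q := by
    intro p q
    simp [Sb]
  have hsub : ∀ x ∈ T, Sb X (pr x) ⊆ Sb X v := by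
    intro x hx u hu
    rw [hT, Finset.mem_filter] at hx
    rw [hsb] at hu ⊢
    have h1 := (hsb _ _).1 hx.1
    exact (hu.trans (hedge x hx.2.1)).trans h1
  have hcard : ∀ x ∈ T, (Sb X (pr x)).card = ∑ u ∈ Sb X v, if u ∈ Sb X (pr x) then 1 else 0 := by
    intro x hx
    rw [← Finset.sum_filter, Finset.sum_const, smul_eq_mul, mul_one]
    congr 1
    ext u
    rw [Finset.mem_filter]
    exact ⟨fun h => ⟨hsub x hx h, h⟩, fun h => h.2⟩
  have hsum : ∑ x ∈ T, (Sb X (if prv x then lft D x else rgt D x)).card =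
      ∑ u ∈ Sb X v, (T.filter (fun x => u ∈ Sb X (pr x))).card := by
    calc ∑ x ∈ T, (Sb X (if prv x then lft D x else rgt D x)).card
        = ∑ x ∈ T, ∑ u ∈ Sb X v, (if u ∈ Sb X (pr x) then 1 else 0) :=
          Finset.sum_congr rfl hcard
      _ = ∑ u ∈ Sb X v, ∑ x ∈ T, (if u ∈ Sb X (pr x) then 1 else 0) := Finset.sum_comm
      _ = _ := by
        apply Finset.sum_congr rfl
        intro u _
        rw [Finset.card_filter]
  rw [hsum, Finset.mul_sum]
  have hfin : ∀ u ∈ Sb X v, Δ * (T.filter (fun x => u ∈ Sb X (pr x))).card ≤ X.deg v := by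
    intro u _
    apply card_le _ X.deg Δ (X.deg v) hΔ
    · intro x hx
      rw [Finset.mem_filter, hT, Finset.mem_filter] at hx
      obtain ⟨⟨h1, h2, h3, h4⟩, h5⟩ := hx
      exact ⟨((hdeg x h2).2 h3 h4).2, deg_path hTYP X ((hsb _ _).1 h1) hv⟩
    · intro x hx y hy hxy
      rw [Finset.mem_filter, hT, Finset.mem_filter] at hx hy
      obtain ⟨⟨h1, h2, h3, h4⟩, h5⟩ := hx
      obtain ⟨⟨k1, k2, k3, k4⟩, k5⟩ := hy
      rw [hsb] at h1 h5 k1 k5
      obtain ⟨j, hj⟩ := hPr x h2
      obtain ⟨k, hk⟩ := hPr y k2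
      -- either `y` is below `pr x` or `x` is below `pr y`
      have hxt : ¬ D.Path v (pr x) := fun hc => no_cycle hj.1 ((npath_path h1).trans hc)
      by_cases hyx : D.Path y (pr x)
      · right
        have h6 := (leave hj k1 hyx hxt).1
        have h7 := deg_path hTYP X h6 (hdeg x h2).1
        have h8 := ((hdeg x h2).2 h3 h4).1
        omega
      · left
        have hty : ¬ D.Path (pr y) (pr x) := by
          intro hc
          exact hxy (hj.2 y k (pr y) hk.1 hc hyx).1.symm
        have h6 := (leave hj k5 (npath_path h5) hty).2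
        have h7 := deg_path hTYP X h6 (hdeg y k2).1
        have h8 := ((hdeg y k2).2 k3 k4).1
        omega
  calc ∑ u ∈ Sb X v, Δ * (T.filter (fun x => u ∈ Sb X (pr x))).card
      ≤ ∑ _u ∈ Sb X v, X.deg v := Finset.sum_le_sum hfin
    _ = X.deg v * (Sb X v).card := by
      rw [Finset.sum_const, smul_eq_mul, mul_comm]

end Pool.Agent.H81.NCH
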