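import Pool.Agent.H81.NCH.Stmts
import Pool.Agent.H81.NCH.Base

set_option autoImplicit false

namespace Pool.Agent.H81.NCH.REC

open Pool.Agent.H80

universe u

open Classical in
theorem gfac_nonneg (h m : ℕ) (r : ℕ → ℕ → ℕ) (e i a c b : ℕ) : 0 ≤ gfac h m r e i a c b := by
  unfold gfac
  split_ifs
  · positivity
  · norm_num
  · exact le_rfl

theorem rho_nonneg {K : Type u} [Field K] (h m : ℕ) (r : ℕ → ℕ → ℕ) {n : ℕ} [NeZero n]
    (a b : ℕ) (F : (ℕ → Fin n) → K) : 0 ≤ rho h m r a b F := by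
  unfold rho
  positivity

theorem stop_len (hSIZ : SIZStmt) (h m e i a c b : ℕ) (hh : 1 ≤ h) (hm : 1 ≤ m) (he : e + 10 ≤ h)
    (hs : Stop h m e i a c b) : a + 32 * (NN h * m) ≤ c ∧ c + 32 * (NN h * m) ≤ b := by
  obtain ⟨-, h2, -⟩ := hSIZ h m hh hm
  obtain ⟨⟨x, -, hx1, hx2⟩, ⟨y, -, hy1, hy2⟩⟩ := hs
  have hx := h2 (e + 9) (512 * i + x) (by omega)
  have hy := h2 (e + 9) (512 * i + y) (by omega)
  constructor <;> omega

/-- the arithmetic at the end -/
theorem numer (h m j d : ℕ) (hm : 1 ≤ m) (hd : d ≤ 4 ^ h * (32 * (2 ^ (h + 3) * m)))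
    (hj : j + 1 ≤ h) :
    ((d : ℝ) + 1) * (1 / (m : ℝ) ^ (h + 10)) ≤ (2 ^ (12 * h + 36) / (m : ℝ)) ^ (j + 1) / 2 := by
  have hm0 : (1 : ℝ) ≤ m := by exact_mod_cast hm
  have hd1 : (d : ℝ) + 1 ≤ 2 ^ (12 * h + 35) * m := by
    have h1 : d + 1 ≤ 2 ^ (12 * h + 35) * m := by
      have h2 : 4 ^ h * (32 * (2 ^ (h + 3) * m)) = 2 ^ (3 * h + 8) * m := by
        rw [show (4 : ℕ) = 2 ^ 2 by norm_num, ← pow_mul, show (32 : ℕ) = 2 ^ 5 by norm_num]
        rw [show 3 * h + 8 = 2 * h + (5 + (h + 3)) by ring, pow_add, pow_add]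
        ring
      have h3 : 2 ^ (3 * h + 8) * m + 1 ≤ 2 ^ (3 * h + 9) * m := by
        have : 1 ≤ 2 ^ (3 * h + 8) * m := Nat.mul_pos (by positivity) hm
        calc 2 ^ (3 * h + 8) * m + 1 ≤ 2 ^ (3 * h + 8) * m + 2 ^ (3 * h + 8) * m := by omega
          _ = 2 ^ (3 * h + 9) * m := by
            rw [show 3 * h + 9 = (3 * h + 8) + 1 by ring, pow_succ]; ring
      have h4 : 2 ^ (3 * h + 9) * m ≤ 2 ^ (12 * h + 35) * m :=
        Nat.mul_le_mul_right _ (Nat.pow_le_pow_right (by norm_num) (by omega))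
      omega
    exact_mod_cast h1
  have hpow : (m : ℝ) ^ (h + 10) = m * (m : ℝ) ^ (h + 9) := by
    rw [show h + 10 = (h + 9) + 1 by ring, pow_succ]; ring
  have h5 : ((d : ℝ) + 1) * (1 / (m : ℝ) ^ (h + 10)) ≤ 2 ^ (12 * h + 35) / (m : ℝ) ^ (h + 9) := by
    rw [mul_one_div, div_le_div_iff₀ (by positivity) (by positivity), hpow]
    have : 0 < (m : ℝ) ^ (h + 9) := by positivity
    nlinarith
  have h6 : (2 : ℝ) ^ (12 * h + 36) / (m : ℝ) ^ (j + 1) ≤ (2 ^ (12 * h + 36) / (m : ℝ)) ^ (j + 1) := by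
    rw [div_pow]
    apply div_le_div_of_nonneg_right _ (by positivity)
    calc (2 : ℝ) ^ (12 * h + 36) = ((2 : ℝ) ^ (12 * h + 36)) ^ 1 := (pow_one _).symm
      _ ≤ ((2 : ℝ) ^ (12 * h + 36)) ^ (j + 1) := by
        apply pow_le_pow_right₀ (one_le_pow₀ (by norm_num)) (by omega)
  have h7 : (2 : ℝ) ^ (12 * h + 35) / (m : ℝ) ^ (h + 9) ≤
      (2 : ℝ) ^ (12 * h + 36) / (m : ℝ) ^ (j + 1) / 2 := by
    have h8 : (2 : ℝ) ^ (12 * h + 36) / (m : ℝ) ^ (j + 1) / 2 =
        (2 : ℝ) ^ (12 * h + 35) / (m : ℝ) ^ (j + 1) := by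
      rw [show 12 * h + 36 = (12 * h + 35) + 1 by ring, pow_succ]
      ring
    rw [h8]
    apply div_le_div_of_nonneg_left (by positivity) (by positivity)
    exact pow_le_pow_right₀ hm0 (by omega)
  calc ((d : ℝ) + 1) * (1 / (m : ℝ) ^ (h + 10)) ≤ 2 ^ (12 * h + 35) / (m : ℝ) ^ (h + 9) := h5
    _ ≤ (2 : ℝ) ^ (12 * h + 36) / (m : ℝ) ^ (j + 1) / 2 := h7
    _ ≤ _ := by linarith

/-- the algebra at the end -/
theorem fin_alg (h j : ℕ) (c M : ℝ) :
    c * ((2 ^ (12 * h + 36) / M) ^ (j + 1) / 2) +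
      2 ^ (2 * h) * (2 ^ (8 * h + 35) / M) * (2 ^ (12 * h + 36) / M) ^ j * (4 ^ h * c) =
    c * (2 ^ (12 * h + 36) / M) ^ (j + 1) := by
  have h4 : (4 : ℝ) ^ h = 2 ^ (2 * h) := by
    rw [show (4 : ℝ) = 2 ^ 2 by norm_num, ← pow_mul]
  have h5 : (2 : ℝ) ^ (12 * h + 36) = 2 * 2 ^ (2 * h) * 2 ^ (2 * h) * 2 ^ (8 * h + 35) := by
    rw [show 12 * h + 36 = 2 * h + (2 * h + (8 * h + 35)) + 1 by ring, pow_succ, pow_add, pow_add]
    ring
  rw [h4, h5]
  generalize (2 : ℝ) ^ (2 * h) = P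
  generalize (2 : ℝ) ^ (8 * h + 35) = Q
  have h6 : (2 * P * P * Q / M) ^ (j + 1) = (2 * P * P * Q / M) ^ j * (2 * P * P * Q / M) :=
    pow_succ _ _
  rw [h6]
  generalize (2 * P * P * Q / M) ^ j = S
  ring

theorem fin_ineq (N P S Q q t : ℝ) (h1 : N ≤ P) (h2 : S ≤ Q) (hS : 0 ≤ S) (hq : 0 ≤ q) (ht : 0 ≤ t)
    (hP : 0 ≤ P) : N * q * t * S ≤ P * q * t * Q := by
  have h3 : N * q * t ≤ P * q * t :=
    mul_le_mul_of_nonneg_right (mul_le_mul_of_nonneg_right h1 hq) ht
  exact mul_le_mul h3 h2 hS (mul_nonneg (mul_nonneg hP hq) ht)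

end Pool.Agent.H81.NCH.REC

namespace Pool.Agent.H81.NCH

open Pool.Agent.H80

universe u

open REC in
open Classical in
theorem rec_thm (hONE : ONEStmt.{u}) (hRCI : RCIStmt.{u}) (hALV : ALVStmt) (hPRV : PRVStmt.{u})
    (hSIZ : SIZStmt) (hAVA : AVAStmt) (hPRD : PRDStmt.{u}) (hRKI : RKIStmt.{u})
    (hTYP : TYPStmt.{u}) (hRRF : RRFStmt) : RECStmt.{u} := by
  intro K _ h m n _ D X j hh hmb hn hWS
  have hm1 : 1 ≤ m := le_trans (Nat.one_le_two_pow) hmb
  have hm0 : (0 : ℝ) < m := by exact_mod_cast hm1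
  obtain ⟨prv, hprv⟩ := hPRV K n D X hWS
  have hself : ∀ v : D.V, v ∈ Sb X v := by
    intro v
    simp only [Sb, Finset.mem_filter, Finset.mem_univ, true_and]
    exact Relation.ReflTransGen.refl
  induction j with
  | zero =>
    intro e i v a ω hi he hv ha hce hdd hpot
    rw [pow_zero, mul_one]
    obtain ⟨hmono, hconst, -⟩ := hAVA h m (Inside e i) hm1
    calc avg (Inside e i) (fun ω' => rho h m (rr ω') a (a + X.deg v) (FF X v a)) ω
        ≤ avg (Inside e i) (fun _ => (1 : ℝ)) ω := by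
          apply hmono
          intro ω'
          exact (hRKI K h m n (rr ω') (FF X v a) a (a + X.deg v) hm1 hn (Nat.le_add_right _ _) hdd
            (hTYP K n D X v a).1).1
      _ = 1 := hconst 1 ω
      _ ≤ ((Sb X v).card : ℝ) := by
          have : 1 ≤ (Sb X v).card := Finset.card_pos.2 ⟨v, hself v⟩
          exact_mod_cast this
  | succ j ih =>
    intro e i v a ω hi he hv ha hce hdd hpot
    obtain ⟨hmono, hconst, hsmul, hsum, hadd, hnn⟩ := hAVA h m (Inside e i) hm1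
    obtain ⟨hSIZ1, hSIZ2, hSIZ3⟩ := hSIZ h m hh hm1
    have hgj : 30 * ((j : ℤ) + 1) ≤ Pot h m e i a (a + X.deg v) := by
      push_cast at hpot
      exact hpot
    have hgh : e + 30 * (j + 1) ≤ h := by
      unfold Pot at hgj
      omega
    set Δ : ℕ := 32 * (NN h * m) with hΔ
    have hΔ1 : 1 ≤ Δ := by
      have := Nat.mul_pos (NN_pos h) hm1
      omega
    set δ : ℝ := 2 ^ (12 * h + 36) / (m : ℝ) with hδ
    have hδ0 : 0 ≤ δ := by positivity
    let pr : D.V → D.V := fun x => if prv x then lft D x else rgt D x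
    let B : D.V → ℝ := fun x => ((Sb X (pr x)).card : ℝ) * δ ^ j
    have hB0 : ∀ x, 0 ≤ B x := fun x => by positivity
    let C0 : D.V → Prop := fun x => MulN X x ∧ Δ ≤ X.deg (lft D x) ∧ Δ ≤ X.deg (rgt D x)
    let C1 : ℕ × ℕ → Prop := fun p => p.1 + 10 ≤ h ∧ p.2 < 2 ^ p.1
    let C2 : D.V → ℕ → ℕ × ℕ → Prop := fun x a' p => a' + X.deg x ≤ dd h m ∧
      30 * ((j : ℤ) + 1) ≤ Pot h m p.1 p.2 a' (a' + X.deg x)
    let gf : D.V → ℕ → ℕ × ℕ → Om h m → ℝ := fun x a' p ω' =>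
      gfac h m (rr ω') p.1 p.2 a' (a' + X.deg (lft D x)) (a' + X.deg (lft D x) + X.deg (rgt D x))
    let R : D.V → ℕ → Om h m → ℝ := fun x a' ω' =>
      if prv x then rho h m (rr ω') a' (a' + X.deg (lft D x)) (FF X (lft D x) a')
        else rho h m (rr ω') (a' + X.deg (lft D x)) (a' + X.deg (lft D x) + X.deg (rgt D x))
          (FF X (rgt D x) (a' + X.deg (lft D x)))
    have hR0 : ∀ x a' ω', 0 ≤ R x a' ω' := by
      intro x a' ω'
      simp only [R]
      split_ifs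
      · exact rho_nonneg _ _ _ _ _ _
      · exact rho_nonneg _ _ _ _ _ _
    -- pointwise bound
    have hpt : ∀ ω' : Om h m, rho h m (rr ω') a (a + X.deg v) (FF X v a) ≤
        ((Sb X v).card : ℝ) * (dd h m + 1) * (1 / (m : ℝ) ^ KK h) +
        ∑ x ∈ Sb X v, ∑ a' ∈ Finset.range (dd h m + 1), ∑ p ∈ nds h e i,
          (if C0 x ∧ C1 p ∧ C2 x a' p then gf x a' p ω' * R x a' ω' else 0) := by
      intro ω'
      have h1 := hONE K h m n (rr ω') D X (30 * ((j : ℤ) + 1)) e i v a hm1 hn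
        (hRRF h m ω' hm1).1 (by omega) hv hi (by omega) ha hce hdd hgj
      refine h1.trans ?_
      apply add_le_add le_rfl
      apply Finset.sum_le_sum
      intro x _
      apply Finset.sum_le_sum
      intro a' _
      apply Finset.sum_le_sum
      intro p _
      by_cases hc : MulN X x ∧ a' + X.deg x ≤ dd h m ∧
        Alive h m (rr ω') a' (a' + X.deg (lft D x)) (a' + X.deg (lft D x) + X.deg (rgt D x)) ∧
        Stop h m p.1 p.2 a' (a' + X.deg (lft D x)) (a' + X.deg (lft D x) + X.deg (rgt D x)) ∧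
        p.1 + 10 ≤ h ∧ p.2 < 2 ^ p.1 ∧ 30 * ((j : ℤ) + 1) ≤ Pot h m p.1 p.2 a' (a' + X.deg x)
      · rw [if_pos hc]
        obtain ⟨c1, c2, c3, c4, c5, c6, c7⟩ := hc
        have hlen := stop_len hSIZ h m _ _ _ _ _ hh hm1 c5 c4
        have hdeg : X.deg x = X.deg (lft D x) + X.deg (rgt D x) := by
          obtain ⟨hne, b1, b2, hb⟩ := c1
          obtain ⟨-, -, t3⟩ := hTYP K n D X x 0
          obtain ⟨-, -, -, t4⟩ := t3 hne
          have hl : lft D x = b1 := by unfold lft; rw [hb]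
          have hr : rgt D x = b2 := by unfold rgt; rw [hb]
          rw [hl, hr]
          exact (t4 b1 b2 hb).2.2.1
        have hPRD' := hPRD K h m n (rr ω') D X x a' hm1 hn c1 (by omega)
        obtain ⟨-, -, -, -, hP⟩ := hPRD'
        obtain ⟨hP1, hP2⟩ := hP p.1 p.2 c3 c4
        rw [if_pos ⟨⟨c1, by omega, by omega⟩, ⟨c5, c6⟩, ⟨c2, c7⟩⟩]
        simp only [gf, R]
        by_cases hb : prv x = true
        · rw [if_pos hb]; exact hP1
        · rw [if_neg hb]; exact hP2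
      · rw [if_neg hc]
        split_ifs
        · exact mul_nonneg (gfac_nonneg _ _ _ _ _ _ _ _) (hR0 _ _ _)
        · exact le_rfl
    -- averages of the terms
    have hterm : ∀ x ∈ Sb X v, ∀ a' ∈ Finset.range (dd h m + 1), ∀ p ∈ nds h e i,
        avg (Inside e i) (fun ω' => if C0 x ∧ C1 p ∧ C2 x a' p then gf x a' p ω' * R x a' ω' else 0)
          ω ≤ if C0 x ∧ C1 p then avg (Inside e i) (gf x a' p) ω * B x else 0 := by
      intro x _ a' _ p hp
      have hin : Inside e i p.1 p.2 := by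
        unfold nds at hp
        rw [Finset.mem_filter] at hp
        exact hp.2.2
      have hg0 : 0 ≤ avg (Inside e i) (gf x a' p) ω :=
        hnn _ ω (fun ω' => gfac_nonneg _ _ _ _ _ _ _ _)
      by_cases hc : C0 x ∧ C1 p ∧ C2 x a' p
      · simp only [if_pos hc]
        rw [if_pos ⟨hc.1, hc.2.1⟩]
        obtain ⟨c1, c2, c3⟩ := hc
        exact hRCI K h m n D X j (prv x) e i p.1 p.2 x a' ω hm1 hn ih hi hin c2.1 c1.1 c3.1 c3.2
      · simp only [if_neg hc]
        rw [hconst 0 ω]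
        split_ifs
        · exact mul_nonneg hg0 (hB0 x)
        · exact le_rfl
    have hsum1 : ∀ x ∈ Sb X v, ∀ p ∈ nds h e i,
        ∑ a' ∈ Finset.range (dd h m + 1),
          (if C0 x ∧ C1 p then avg (Inside e i) (gf x a' p) ω * B x else 0) ≤
        if C0 x then (2 ^ (8 * h + 35) / (m : ℝ)) * B x else 0 := by
      intro x _ p hp
      have hin : Inside e i p.1 p.2 := by
        unfold nds at hp
        rw [Finset.mem_filter] at hp
        exact hp.2.2
      by_cases h0 : C0 x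
      · by_cases h1' : C1 p
        · simp only [if_pos (And.intro h0 h1'), if_pos h0]
          rw [← Finset.sum_mul]
          apply mul_le_mul_of_nonneg_right _ (hB0 x)
          exact hALV h m e i p.1 p.2 (X.deg (lft D x)) (X.deg (rgt D x)) ω hm1 hi hin h1'.1
        · simp only [if_neg (fun hc : C0 x ∧ C1 p => h1' hc.2), if_pos h0, Finset.sum_const_zero]
          exact mul_nonneg (by positivity) (hB0 x)
      · simp only [if_neg (fun hc : C0 x ∧ C1 p => h0 hc.1), if_neg h0, Finset.sum_const_zero]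
        exact le_rfl
    have hprv' : (∑ x ∈ (Sb X v).filter (fun x => C0 x), ((Sb X (pr x)).card : ℝ)) ≤
        4 ^ h * ((Sb X v).card : ℝ) := by
      have h1 := hprv Δ v hΔ1 hv
      have h2 : X.deg v ≤ 4 ^ h * Δ := by omega
      have h3 : Δ * ∑ x ∈ (Sb X v).filter (fun x => C0 x), (Sb X (pr x)).card ≤
          Δ * (4 ^ h * (Sb X v).card) := by
        refine h1.trans ?_
        calc X.deg v * (Sb X v).card ≤ (4 ^ h * Δ) * (Sb X v).card := Nat.mul_le_mul_right _ h2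
          _ = Δ * (4 ^ h * (Sb X v).card) := by ring
      have h4 := Nat.le_of_mul_le_mul_left h3 (by omega)
      exact_mod_cast h4
    have hnum := numer h m j (dd h m) hm1 hSIZ1 (by omega)
    have hcardn : ((nds h e i).card : ℝ) ≤ 2 ^ (2 * h) := by exact_mod_cast hSIZ3 e i hi
    have hδj : 0 ≤ δ ^ j := pow_nonneg hδ0 j
    have hq0 : (0 : ℝ) ≤ 2 ^ (8 * h + 35) / (m : ℝ) :=
      div_nonneg (pow_nonneg (by norm_num) _) hm0.le
    have hP0 : (0 : ℝ) ≤ 2 ^ (2 * h) := pow_nonneg (by norm_num) _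
    calc avg (Inside e i) (fun ω' => rho h m (rr ω') a (a + X.deg v) (FF X v a)) ω
        ≤ avg (Inside e i) (fun ω' => ((Sb X v).card : ℝ) * (dd h m + 1) * (1 / (m : ℝ) ^ KK h) +
          ∑ x ∈ Sb X v, ∑ a' ∈ Finset.range (dd h m + 1), ∑ p ∈ nds h e i,
            (if C0 x ∧ C1 p ∧ C2 x a' p then gf x a' p ω' * R x a' ω' else 0)) ω := hmono _ _ ω hpt
      _ = ((Sb X v).card : ℝ) * (dd h m + 1) * (1 / (m : ℝ) ^ KK h) +
          ∑ x ∈ Sb X v, ∑ a' ∈ Finset.range (dd h m + 1), ∑ p ∈ nds h e i,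
            avg (Inside e i) (fun ω' =>
              if C0 x ∧ C1 p ∧ C2 x a' p then gf x a' p ω' * R x a' ω' else 0) ω := by
          rw [hadd (fun _ => ((Sb X v).card : ℝ) * (dd h m + 1) * (1 / (m : ℝ) ^ KK h)), hconst]
          congr 1
          rw [hsum]
          apply Finset.sum_congr rfl
          intro x _
          rw [hsum]
          apply Finset.sum_congr rfl
          intro a' _
          rw [hsum]
      _ ≤ ((Sb X v).card : ℝ) * (dd h m + 1) * (1 / (m : ℝ) ^ KK h) +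
          ∑ x ∈ Sb X v, ∑ a' ∈ Finset.range (dd h m + 1), ∑ p ∈ nds h e i,
            (if C0 x ∧ C1 p then avg (Inside e i) (gf x a' p) ω * B x else 0) := by
          apply add_le_add le_rfl
          apply Finset.sum_le_sum
          intro x hx
          apply Finset.sum_le_sum
          intro a' ha'
          apply Finset.sum_le_sum
          intro p hp
          exact hterm x hx a' ha' p hp
      _ ≤ ((Sb X v).card : ℝ) * (dd h m + 1) * (1 / (m : ℝ) ^ KK h) +
          ∑ x ∈ Sb X v, ∑ _p ∈ nds h e i,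
            (if C0 x then (2 ^ (8 * h + 35) / (m : ℝ)) * B x else 0) := by
          apply add_le_add le_rfl
          apply Finset.sum_le_sum
          intro x hx
          rw [Finset.sum_comm]
          apply Finset.sum_le_sum
          intro p hp
          exact hsum1 x hx p hp
      _ = ((Sb X v).card : ℝ) * (dd h m + 1) * (1 / (m : ℝ) ^ KK h) +
          ((nds h e i).card : ℝ) * (2 ^ (8 * h + 35) / (m : ℝ)) * δ ^ j *
            ∑ x ∈ (Sb X v).filter (fun x => C0 x), ((Sb X (pr x)).card : ℝ) := by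
          congr 1
          rw [Finset.mul_sum, Finset.sum_filter]
          apply Finset.sum_congr rfl
          intro x _
          rw [Finset.sum_const, nsmul_eq_mul]
          split_ifs
          · simp only [B]; ring
          · ring
      _ ≤ ((Sb X v).card : ℝ) * (δ ^ (j + 1) / 2) +
          2 ^ (2 * h) * (2 ^ (8 * h + 35) / (m : ℝ)) * δ ^ j * (4 ^ h * ((Sb X v).card : ℝ)) := by
          apply add_le_add
          · rw [mul_assoc]
            apply mul_le_mul_of_nonneg_left _ (by positivity)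
            exact hnum
          · exact fin_ineq _ _ _ _ _ _ hcardn hprv' (Finset.sum_nonneg fun x _ => Nat.cast_nonneg _)
              hq0 hδj hP0
      _ = ((Sb X v).card : ℝ) * δ ^ (j + 1) := fin_alg h j _ _

end Pool.Agent.H81.NCH
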